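import Pool.Agent.Helper27.PHU.Defs

/-!
# Module PHU-11: positivity of the critical chords
-/

set_option autoImplicit false

open MeasureTheory Set

namespace Pool.Agent.Helper79.PHU

open Pool.Agent.Helper27.PHU Pool.Agent.Helper37.PH Pool.Agent.Helper61.PH

theorem dt_add (v p q : ℝ × ℝ) : dt v (p + q) = dt v p + dt v q := by
  simp only [dt, Prod.fst_add, Prod.snd_add]; ring

theorem dt_sub (v p q : ℝ × ℝ) : dt v (p - q) = dt v p - dt v q := by
  simp only [dt, Prod.fst_sub, Prod.snd_sub]; ring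

theorem dt_smul (v : ℝ × ℝ) (c : ℝ) (p : ℝ × ℝ) : dt v (c • p) = c * dt v p := by
  simp only [dt, Prod.smul_fst, Prod.smul_snd, smul_eq_mul]; ring

theorem dt_comm (v p : ℝ × ℝ) : dt v p = dt p v := by
  simp only [dt]; ring

theorem dt_uu_uu (θ : ℝ) : dt (uu θ) (uu θ) = 1 := by
  have := Real.sin_sq_add_cos_sq θ
  simp only [dt, uu]; linarith [sq (Real.cos θ), sq (Real.sin θ)]

theorem dt_nn_nn (θ : ℝ) : dt (nn θ) (nn θ) = 1 := by
  have := Real.sin_sq_add_cos_sq θ
  simp only [dt, nn]; linarith [sq (Real.cos θ), sq (Real.sin θ)]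

theorem dt_nn_uu (θ : ℝ) : dt (nn θ) (uu θ) = 0 := by
  simp only [dt, nn, uu]; ring

/-- expansion in the orthonormal basis -/
theorem expand (θ : ℝ) (p : ℝ × ℝ) : p = dt (uu θ) p • uu θ + dt (nn θ) p • nn θ := by
  have := Real.sin_sq_add_cos_sq θ
  apply Prod.ext
  · simp only [dt, nn, uu, Prod.fst_add, Prod.smul_fst, smul_eq_mul]
    linear_combination (-p.1) * this
  · simp only [dt, nn, uu, Prod.snd_add, Prod.smul_snd, smul_eq_mul]
    linear_combination (-p.2) * this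

theorem ext_level {θ : ℝ} {p q : ℝ × ℝ} (h1 : dt (uu θ) p = dt (uu θ) q)
    (h2 : dt (nn θ) p = dt (nn θ) q) : p = q := by
  rw [expand θ p, expand θ q, h1, h2]

theorem exists_push {K : Set (ℝ × ℝ)} {Y : ℝ × ℝ} (hY : Y ∈ interior K) (w : ℝ × ℝ) :
    ∃ ε : ℝ, 0 < ε ∧ Y + ε • w ∈ K := by
  have hc : Continuous fun t : ℝ => Y + t • w := by fun_prop
  have h0 : (fun t : ℝ => Y + t • w) 0 ∈ interior K := by simpa using hY
  have hopen : IsOpen ((fun t : ℝ => Y + t • w) ⁻¹' interior K) := isOpen_interior.preimage hc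
  obtain ⟨ε, hε, hball⟩ := Metric.isOpen_iff.1 hopen 0 h0
  refine ⟨ε / 2, half_pos hε, interior_subset (hball ?_)⟩
  rw [Metric.mem_ball, dist_zero_right, Real.norm_eq_abs, abs_of_pos (half_pos hε)]
  exact half_lt_self hε

/-- a support is strict at interior points -/
theorem strict_support {K : Set (ℝ × ℝ)} {Y X v : ℝ × ℝ} (hY : Y ∈ interior K)
    (hv : dt v v = 1) (hs : ∀ q ∈ K, dt v (q - X) ≤ 0) : dt v (Y - X) < 0 := by
  obtain ⟨ε, hε, h⟩ := exists_push hY v
  have := hs _ h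
  rw [show Y + ε • v - X = (Y - X) + ε • v by abel, dt_add, dt_smul, hv] at this
  linarith

section

variable {K : Set (ℝ × ℝ)} {θ : ℝ} {T U : ℝ × ℝ}

/-- a nonempty interior gives a positive width -/
theorem width_pos (hK : SBody K) (top : ∀ q ∈ K, dt (nn θ) q ≤ dt (nn θ) T)
    (bot : ∀ q ∈ K, dt (nn θ) U ≤ dt (nn θ) q) : dt (nn θ) U < dt (nn θ) T := by
  obtain ⟨Y, hY⟩ := hK.body.interior_nonempty
  obtain ⟨ε, hε, h⟩ := exists_push hY (nn θ)
  have h1 := top _ h
  have h2 := bot _ (interior_subset hY)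
  rw [dt_add, dt_smul, dt_nn_nn] at h1
  linarith

theorem top_unique (hK : SBody K) (hT : T ∈ K) (top : ∀ q ∈ K, dt (nn θ) q ≤ dt (nn θ) T)
    {q : ℝ × ℝ} (hq : q ∈ K) (h : dt (nn θ) q = dt (nn θ) T) : q = T := by
  by_contra hne
  have hm := hK.strict q hq T hT hne
  obtain ⟨ε, hε, h2⟩ := exists_push hm (nn θ)
  have h1 := top _ h2
  rw [dt_add, dt_smul, dt_smul, dt_add, dt_nn_nn, h] at h1
  linarith

theorem bot_unique (hK : SBody K) (hU : U ∈ K) (bot : ∀ q ∈ K, dt (nn θ) U ≤ dt (nn θ) q)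
    {q : ℝ × ℝ} (hq : q ∈ K) (h : dt (nn θ) q = dt (nn θ) U) : q = U := by
  by_contra hne
  have hm := hK.strict q hq U hU hne
  obtain ⟨ε, hε, h2⟩ := exists_push hm (-nn θ)
  have h1 := bot _ h2
  rw [dt_add, dt_smul, dt_smul, dt_add, h] at h1
  have : dt (nn θ) (-nn θ) = -1 := by
    rw [show -nn θ = (-1 : ℝ) • nn θ by simp, dt_smul, dt_nn_nn]; ring
  rw [this] at h1
  linarith

/-- an interior point at every level strictly between -/
theorem exists_interior_level (hK : SBody K) (hT : T ∈ K) (hU : U ∈ K) {t : ℝ}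
    (h1 : dt (nn θ) U < t) (h2 : t < dt (nn θ) T) :
    ∃ Y ∈ interior K, dt (nn θ) Y = t := by
  have hne : T ≠ U := by rintro rfl; linarith
  have hM := hK.strict T hT U hU hne
  have hc := hK.body.convex
  set l := dt (nn θ) with hl
  have hh : 0 < l T - l U := by linarith
  set lam := (t - l U) / (l T - l U) with hlam
  have hlam0 : 0 < lam := div_pos (by linarith) hh
  have hlam1 : lam < 1 := (div_lt_one hh).2 (by linarith)
  have hlam2 : lam * (l T - l U) = t - l U := div_mul_cancel₀ _ hh.ne'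
  rcases le_total lam (1 / 2) with hle | hle
  · refine ⟨(2 * lam) • ((1 / 2 : ℝ) • (T + U)) + (1 - 2 * lam) • U,
      hc.combo_interior_self_mem_interior hM hU (by linarith) (by linarith) (by ring), ?_⟩
    rw [hl, dt_add, dt_smul, dt_smul, dt_smul, dt_add, ← hl]
    linear_combination hlam2
  · refine ⟨(2 * (1 - lam)) • ((1 / 2 : ℝ) • (T + U)) + (1 - 2 * (1 - lam)) • T,
      hc.combo_interior_self_mem_interior hM hT (by linarith) (by linarith) (by ring), ?_⟩
    rw [hl, dt_add, dt_smul, dt_smul, dt_smul, dt_add, ← hl]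
    linear_combination hlam2

/-- two supports with normals on both sides are impossible at a point strictly between the
levels -/
theorem not_both (hK : SBody K) (hT : T ∈ K) (hU : U ∈ K) {X v w : ℝ × ℝ}
    (h1 : dt (nn θ) U < dt (nn θ) X) (h2 : dt (nn θ) X < dt (nn θ) T)
    (hv : dt v v = 1) (hw : dt w w = 1) (sv : ∀ q ∈ K, dt v (q - X) ≤ 0)
    (sw : ∀ q ∈ K, dt w (q - X) ≤ 0) (gv : dt v (uu θ) ≤ 0) (gw : 0 ≤ dt w (uu θ)) : False := by
  obtain ⟨Y, hY, hl⟩ := exists_interior_level hK hT hU h1 h2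
  have e : Y - X = (dt (uu θ) Y - dt (uu θ) X) • uu θ := by
    conv_lhs => rw [expand θ (Y - X)]
    rw [dt_sub, dt_sub, hl, sub_self, zero_smul, add_zero]
  have a1 := strict_support hY hv sv
  have a2 := strict_support hY hw sw
  rw [e, dt_smul] at a1 a2
  rcases le_total 0 (dt (uu θ) Y - dt (uu θ) X) with hs | hs
  · have := mul_nonneg hs gw; linarith
  · have := mul_nonneg_of_nonpos_of_nonpos hs gv; linarith

end

theorem good_pos {K : Set (ℝ × ℝ)} (hK : SBody K) {θ : ℝ} {z : Fin 10 → ℝ × ℝ}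
    (h : Good K θ z) :
    0 < dt (uu θ) (z 3 - z 0) ∧ dt (z 6) (uu θ) < 0 ∧ dt (z 7) (uu θ) < 0 ∧
      0 < dt (z 8) (uu θ) ∧ 0 < dt (z 9) (uu θ) ∧ 0 < dt (nn θ) (z 4 - z 5) ∧
      0 < hb θ z ∧ hb θ z < 1 / 2 := by
  have hw := width_pos hK h.top h.bot
  have hh : 0 < dt (nn θ) (z 4 - z 5) := by rw [dt_sub]; linarith
  have l03 : dt (nn θ) (z 3) = dt (nn θ) (z 0) := by
    have := h.lev1; rw [dt_sub] at this; linarith
  have l12 : dt (nn θ) (z 2) = dt (nn θ) (z 1) := by
    have := h.lev2; rw [dt_sub] at this; linarith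
  have l01 : 2 * (dt (nn θ) (z 1) - dt (nn θ) (z 0)) = dt (nn θ) (z 4) - dt (nn θ) (z 5) := by
    have := h.half; rw [dt_sub, dt_sub] at this; exact this
  have t1 := h.top _ h.m1
  have b0 := h.bot _ h.m0
  -- positive length
  have hpos : 0 < dt (uu θ) (z 3 - z 0) := by
    rcases h.pos.lt_or_eq with hp | hp
    · exact hp
    exfalso
    have e30 : z 3 = z 0 := by
      apply ext_level (θ := θ) _ l03
      rw [dt_sub] at hp; linarith
    have e21 : z 2 = z 1 := by
      apply ext_level (θ := θ) _ l12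
      have := h.len
      rw [← hp, dt_sub] at this; linarith
    rcases b0.lt_or_eq with hb | hb
    · refine not_both hK h.m4 h.m5 hb (by linarith) h.u6 h.u9 h.s6 ?_ h.g6 h.g9
      rw [← e30]; exact h.s9
    · refine not_both hK h.m4 h.m5 (X := z 1) (by linarith) (by linarith) h.u7 h.u8 h.s7 ?_ h.g7
        h.g8
      rw [← e21]; exact h.s8
  -- levels of `A` and `B`
  have hA : dt (nn θ) (z 5) < dt (nn θ) (z 0) := by
    rcases b0.lt_or_eq with hb | hb
    · exact hb
    exfalso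
    have e0 := bot_unique hK h.m5 h.bot h.m0 hb.symm
    have e3 := bot_unique hK h.m5 h.bot h.m3 (l03.trans hb.symm)
    rw [e0, e3, sub_self] at hpos
    simp [dt] at hpos
  have hB : dt (nn θ) (z 1) < dt (nn θ) (z 4) := by
    rcases t1.lt_or_eq with hb | hb
    · exact hb
    exfalso
    have e0 := top_unique hK h.m4 h.top h.m1 hb
    have e3 := top_unique hK h.m4 h.top h.m2 (l12.trans hb)
    rw [h.len, e0, e3, sub_self] at hpos
    simp [dt] at hpos
  have ne : ∀ X v : ℝ × ℝ, dt (nn θ) (z 5) < dt (nn θ) X → dt (nn θ) X < dt (nn θ) (z 4) →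
      dt v v = 1 → (∀ q ∈ K, dt v (q - X) ≤ 0) → dt v (uu θ) ≠ 0 := by
    intro X v h1 h2 hv hs h0
    exact not_both hK h.m4 h.m5 h1 h2 hv hv hs hs h0.le h0.ge
  refine ⟨hpos, lt_of_le_of_ne h.g6 (ne _ _ hA (by linarith) h.u6 h.s6),
    lt_of_le_of_ne h.g7 (ne _ _ (by linarith) hB h.u7 h.s7),
    lt_of_le_of_ne h.g8 (ne _ _ (by linarith) (by linarith) h.u8 h.s8).symm,
    lt_of_le_of_ne h.g9 (ne _ _ (by linarith) (by linarith) h.u9 h.s9).symm, hh, ?_, ?_⟩
  · rw [hb, dt_sub]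
    exact div_pos (by linarith) hh
  · rw [hb, div_lt_iff₀ hh, dt_sub, dt_sub]
    linarith

end Pool.Agent.Helper79.PHU
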